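import Mathlib
import Pool.Agent.Restr.Trunc

/-!
# MP_5ab805_an: the extension estimate for all `q > 3` under a modulus of continuity in one
direction
-/

namespace Pool.Agent.Results.MP_5ab805_an.DirectionalModulus

open MeasureTheory
open scoped ENNReal NNReal

/-- The Fourier extension operator of the paraboloid:
`ext f ξ = ∫ exp(-i Φ(x)·ξ) f(x) dx` with `Φ(x) = (x₁, x₂, x₁² + x₂²)`. -/
noncomputable def ext (f : ℝ × ℝ → ℂ) (ξ : ℝ × ℝ × ℝ) : ℂ :=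
  ∫ x : ℝ × ℝ, Complex.exp (-(Complex.I *
    ((x.1 * ξ.1 + x.2 * ξ.2.1 + (x.1 ^ 2 + x.2 ^ 2) * ξ.2.2 : ℝ) : ℂ))) * f x

theorem ext_eq (f : ℝ × ℝ → ℂ) : ext f = Pool.Agent.Restr.E f := by
  funext ξ
  unfold ext Pool.Agent.Restr.E Pool.Agent.Restr.u
  refine integral_congr_ae (Filter.Eventually.of_forall fun x => ?_)
  simp only
  congr 4
  ring_nf

/-- For every `q > 3` and `1/6 ≤ σ ≤ 1/3`: if `f` lives in the disc of radius `1/2` and, in some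
direction `e`, has `L²` modulus of continuity `A h^σ` and `L^q` modulus `A h^((1-3σ)/q)`, then
`‖ext f‖_q ≤ C (‖f‖_q + A)` with `C = C(q, σ)`. -/
theorem result (q σ : ℝ) (hq : 3 < q) (hσ : 1 / 6 ≤ σ) (hσ' : σ ≤ 1 / 3) : ∃ C : ℝ≥0,
    ∀ (f : ℝ × ℝ → ℂ) (e : ℝ × ℝ) (A : ℝ≥0), Measurable f →
    (∀ x : ℝ × ℝ, 1 / 4 < x.1 ^ 2 + x.2 ^ 2 → f x = 0) → e.1 ^ 2 + e.2 ^ 2 = 1 →
    (∀ h : ℝ, 0 < h → h ≤ 1 →
      eLpNorm (fun x => f (x + h • e) - f x) 2 volume ≤ A * ENNReal.ofReal (h ^ σ) ∧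
      eLpNorm (fun x => f (x + h • e) - f x) (ENNReal.ofReal q) volume ≤
        A * ENNReal.ofReal (h ^ ((1 - 3 * σ) / q))) →
    eLpNorm (ext f) (ENNReal.ofReal q) volume ≤
      C * (eLpNorm f (ENNReal.ofReal q) volume + A) := by
  obtain ⟨C, hC⟩ := Pool.Agent.Restr.final hq hσ hσ'
  refine ⟨C, fun f e A hf hs he hA => ?_⟩
  rw [ext_eq]
  exact hC f e A hf hs he hA

end Pool.Agent.Results.MP_5ab805_an.DirectionalModulus
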