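import Mathlib
import Pool.Agent.H27.Fib.Final

/-!
# MP_5ab805_an: the extension estimate for all `q > 3` for functions whose superlevel sets have
fibres of bounded complexity in one direction
-/

namespace Pool.Agent.Results.MP_5ab805_an.FibreComplexity

open MeasureTheory
open scoped ENNReal NNReal

/-- The Fourier extension operator of the paraboloid:
`ext f ξ = ∫ exp(-i Φ(x)·ξ) f(x) dx` with `Φ(x) = (x₁, x₂, x₁² + x₂²)`. -/
noncomputable def ext (f : ℝ × ℝ → ℂ) (ξ : ℝ × ℝ × ℝ) : ℂ :=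
  ∫ x : ℝ × ℝ, Complex.exp (-(Complex.I *
    ((x.1 * ξ.1 + x.2 * ξ.2.1 + (x.1 ^ 2 + x.2 ^ 2) * ξ.2.2 : ℝ) : ℂ))) * f x

/-- A set of reals which is the union of `m` intervals (possibly empty, of any kind). -/
def UnionOfIntervals (m : ℕ) (J : Set ℝ) : Prop :=
  ∃ P : Fin m → Set ℝ, (∀ i, (P i).OrdConnected) ∧ J = ⋃ i, P i

/-- The line `r ↦ s e^⊥ + r e`, where `e^⊥ = (e₂, -e₁)`. -/
def line (e : ℝ × ℝ) (s r : ℝ) : ℝ × ℝ := (s * e.2 + r * e.1, -(s * e.1) + r * e.2)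

/-- On almost every line in direction `e`, every superlevel set `{g > l}`, `l > 0`, is a union of
`m` intervals. -/
def SimpleAlong (m : ℕ) (e : ℝ × ℝ) (g : ℝ × ℝ → ℝ) : Prop :=
  ∀ᵐ s : ℝ, ∀ l : ℝ, 0 < l → UnionOfIntervals m {r : ℝ | l < g (line e s r)}

theorem ext_eq (f : ℝ × ℝ → ℂ) : ext f = Pool.Agent.Restr.E f := by
  funext ξ
  unfold ext Pool.Agent.Restr.E Pool.Agent.Restr.u
  refine integral_congr_ae (Filter.Eventually.of_forall fun x => ?_)
  simp only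
  congr 4
  ring_nf

/-- For every `q > 3` and `p > q / (q - 2)` (for instance `p = q`) there is `C = C(q, p)` such
that, for every `f` living in the disc of radius `1/2` and simple along one direction `e`,
`‖ext f‖_q ≤ C m ‖f‖_p`. -/
theorem result (q p : ℝ) (hq : 3 < q) (hp : q / (q - 2) < p) : ∃ C : ℝ≥0,
    ∀ (f : ℝ × ℝ → ℂ) (e : ℝ × ℝ) (m : ℕ), Measurable f →
    (∀ x : ℝ × ℝ, 1 / 4 < x.1 ^ 2 + x.2 ^ 2 → f x = 0) → e.1 ^ 2 + e.2 ^ 2 = 1 → 1 ≤ m →
    SimpleAlong m e (fun x => (f x).re) → SimpleAlong m e (fun x => -(f x).re) →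
    SimpleAlong m e (fun x => (f x).im) → SimpleAlong m e (fun x => -(f x).im) →
    eLpNorm (ext f) (ENNReal.ofReal q) volume ≤
      C * m * eLpNorm f (ENNReal.ofReal p) volume := by
  obtain ⟨C, hC⟩ := Pool.Agent.H27.Fib.final hq hp
  refine ⟨C, fun f e m hf hs he hm h1 h2 h3 h4 => ?_⟩
  rw [ext_eq]
  refine hC f e m hf hs he hm ?_
  filter_upwards [h1, h2, h3, h4] with s k1 k2 k3 k4
  exact fun l hl => ⟨k1 l hl, k2 l hl, k3 l hl, k4 l hl⟩

end Pool.Agent.Results.MP_5ab805_an.FibreComplexity
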