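import Mathlib
import Pool.Agent.Chirp.All

/-!
# MP_5ab805_an: the extension estimate for all `q > 3`, uniformly over all polynomial chirps
-/

namespace Pool.Agent.Results.MP_5ab805_an.PolynomialChirps

open MeasureTheory
open scoped ENNReal NNReal

/-- The Fourier extension operator of the paraboloid:
`ext f ξ = ∫ exp(-i Φ(x)·ξ) f(x) dx` with `Φ(x) = (x₁, x₂, x₁² + x₂²)`. -/
noncomputable def ext (f : ℝ × ℝ → ℂ) (ξ : ℝ × ℝ × ℝ) : ℂ :=
  ∫ x : ℝ × ℝ, Complex.exp (-(Complex.I *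
    ((x.1 * ξ.1 + x.2 * ξ.2.1 + (x.1 ^ 2 + x.2 ^ 2) * ξ.2.2 : ℝ) : ℂ))) * f x

/-- A set of reals which is the union of `m` intervals (possibly empty, of any kind). -/
def UnionOfIntervals (m : ℕ) (J : Set ℝ) : Prop :=
  ∃ P : Fin m → Set ℝ, (∀ i, (P i).OrdConnected) ∧ J = ⋃ i, P i

/-- The line `r ↦ s e^⊥ + r e`, where `e^⊥ = (e₂, -e₁)`. -/
def line (e : ℝ × ℝ) (s r : ℝ) : ℝ × ℝ := (s * e.2 + r * e.1, -(s * e.1) + r * e.2)

/-- On almost every line in direction `e`, every superlevel set `{g > l}`, `l > 0`, is a union of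
`m` intervals. -/
def SimpleAlong (m : ℕ) (e : ℝ × ℝ) (g : ℝ × ℝ → ℝ) : Prop :=
  ∀ᵐ s : ℝ, ∀ l : ℝ, 0 < l → UnionOfIntervals m {r : ℝ | l < g (line e s r)}

/-- `± Re g` and `± Im g` are simple along `e` and along the orthogonal direction. -/
def Simple (m : ℕ) (e : ℝ × ℝ) (g : ℝ × ℝ → ℂ) : Prop :=
  ∀ v ∈ ({e, (-e.2, e.1)} : Set (ℝ × ℝ)),
    SimpleAlong m v (fun x => (g x).re) ∧ SimpleAlong m v (fun x => -(g x).re) ∧
    SimpleAlong m v (fun x => (g x).im) ∧ SimpleAlong m v (fun x => -(g x).im)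

theorem ext_eq (f : ℝ × ℝ → ℂ) : ext f = Pool.Agent.Restr.E f := by
  funext ξ
  unfold ext Pool.Agent.Restr.E Pool.Agent.Restr.u
  refine integral_congr_ae (Filter.Eventually.of_forall fun x => ?_)
  simp only
  congr 4
  ring_nf

theorem simple_lines {m : ℕ} {e : ℝ × ℝ} {g : ℝ × ℝ → ℂ} (h : Simple m e g) :
    (∀ᵐ s : ℝ, Pool.Agent.H27.Fib.LineFew m g e s) ∧
      ∀ᵐ s : ℝ, Pool.Agent.H27.Fib.LineFew m g (-e.2, e.1) s := by
  have key : ∀ v ∈ ({e, (-e.2, e.1)} : Set (ℝ × ℝ)),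
      ∀ᵐ s : ℝ, Pool.Agent.H27.Fib.LineFew m g v s := by
    intro v hv
    obtain ⟨h1, h2, h3, h4⟩ := h v hv
    filter_upwards [h1, h2, h3, h4] with s k1 k2 k3 k4
    exact fun l hl => ⟨k1 l hl, k2 l hl, k3 l hl, k4 l hl⟩
  exact ⟨key e (Or.inl rfl), key _ (Or.inr rfl)⟩

/-- For every `q > 3` and `p > q / (q - 2)` (for instance `p = q`) there is `C = C(q, p)` such
that `‖ext (exp(iψ) g)‖_q ≤ C ((k + 1)² m)^(1/3) (1 + M)^(2/k) ‖g‖_p` for all `k ≥ 1`, all real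
phases `ψ` of class `C^(k+1)` whose derivative of order `k + 1` is at most `M` on the unit disc,
and all `g` living in the disc of radius `1/2` and simple in some orthonormal frame.
The case `M = 0`: all polynomials `ψ` of degree at most `k`, with arbitrary coefficients. -/
theorem result (q p : ℝ) (hq : 3 < q) (hp : q / (q - 2) < p) : ∃ C : ℝ≥0,
    ∀ (k m : ℕ) (ψ : ℝ × ℝ → ℝ) (M : ℝ) (g : ℝ × ℝ → ℂ) (e : ℝ × ℝ), 1 ≤ k →
      ContDiff ℝ (k + 1 : ℕ) ψ → 0 ≤ M →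
      (∀ x : ℝ × ℝ, x.1 ^ 2 + x.2 ^ 2 ≤ 1 → ‖iteratedFDeriv ℝ (k + 1) ψ x‖ ≤ M) →
      Measurable g → (∀ x : ℝ × ℝ, 1 / 4 < x.1 ^ 2 + x.2 ^ 2 → g x = 0) →
      e.1 ^ 2 + e.2 ^ 2 = 1 → 1 ≤ m → Simple m e g →
      eLpNorm (ext fun x => Complex.exp (Complex.I * ((ψ x : ℝ) : ℂ)) * g x)
          (ENNReal.ofReal q) volume ≤
        C * ENNReal.ofReal ((((k : ℝ) + 1) ^ 2 * m) ^ (1 / 3 : ℝ) * (1 + M) ^ (2 / k : ℝ)) *
          eLpNorm g (ENNReal.ofReal p) volume := by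
  obtain ⟨C, hC⟩ := Pool.Agent.Chirp.smooth_frame Pool.Agent.Chirp.re Pool.Agent.Chirp.t_tay
    Pool.Agent.Chirp.t_iter hq hp
  refine ⟨C, fun k m ψ M g e hk hψ hM hder hg hs he hm hS => ?_⟩
  obtain ⟨h1, h2⟩ := simple_lines hS
  have hfun : (fun x => Complex.exp (Complex.I * ((ψ x : ℝ) : ℂ)) * g x) =
      fun x => Pool.Agent.Chirp.ch ψ (fun _ => 0) x * g x := by
    funext x
    unfold Pool.Agent.Chirp.ch
    rw [add_zero]
  rw [ext_eq, hfun]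
  exact hC k m ψ (1 + M) g e hk hm hψ (by linarith)
    (fun x hx => (hder x hx).trans (by linarith)) hg hs he h1 h2

end Pool.Agent.Results.MP_5ab805_an.PolynomialChirps
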