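import Mathlib
import Pool.Agent.Ray.Dy4

/-!
# MP_5ab805_an: the extension estimate for all `q > 3` under a modulus of continuity along the
rays through one point
-/

namespace Pool.Agent.Results.MP_5ab805_an.RayModulus

open MeasureTheory
open scoped ENNReal NNReal

/-- The Fourier extension operator of the paraboloid:
`ext f ξ = ∫ exp(-i Φ(x)·ξ) f(x) dx` with `Φ(x) = (x₁, x₂, x₁² + x₂²)`. -/
noncomputable def ext (f : ℝ × ℝ → ℂ) (ξ : ℝ × ℝ × ℝ) : ℂ :=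
  ∫ x : ℝ × ℝ, Complex.exp (-(Complex.I *
    ((x.1 * ξ.1 + x.2 * ξ.2.1 + (x.1 ^ 2 + x.2 ^ 2) * ξ.2.2 : ℝ) : ℂ))) * f x

theorem ext_eq (f : ℝ × ℝ → ℂ) : ext f = Pool.Agent.Restr.E f := by
  funext ξ
  unfold ext Pool.Agent.Restr.E Pool.Agent.Restr.u
  refine integral_congr_ae (Filter.Eventually.of_forall fun x => ?_)
  simp only
  congr 4
  ring_nf

/-- For every `q > 3` and `4/q - 1 < σ ≤ 1` there is a constant `C = C(q, σ)` such that: if `f`
lives in the disc of radius `1` around a point `p` and its dilates about `p` satisfy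
`‖f(p + (1+h)(· - p)) - f‖_q ≤ A h^σ` for `0 < h ≤ 1`, then `‖ext f‖_q ≤ C (‖f‖_q + A)`.
Only the behaviour of `f` along the rays emanating from `p` is restricted. -/
theorem result (q σ : ℝ) (hq : 3 < q) (hσ : 4 / q - 1 < σ) (hσ1 : σ ≤ 1) : ∃ C : ℝ≥0,
    ∀ (f : ℝ × ℝ → ℂ) (p : ℝ × ℝ) (A : ℝ≥0), Measurable f →
    (∀ x : ℝ × ℝ, 1 < (x.1 - p.1) ^ 2 + (x.2 - p.2) ^ 2 → f x = 0) →
    (∀ h : ℝ, 0 < h → h ≤ 1 →
      eLpNorm (fun x => f (p + (1 + h) • (x - p)) - f x) (ENNReal.ofReal q) volume ≤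
        A * ENNReal.ofReal (h ^ σ)) →
    eLpNorm (ext f) (ENNReal.ofReal q) volume ≤
      C * (eLpNorm f (ENNReal.ofReal q) volume + A) := by
  obtain ⟨C, hC⟩ := Pool.Agent.Ray.final hq hσ hσ1
  refine ⟨C, fun f p A hf hs hA => ?_⟩
  rw [ext_eq]
  exact hC f p A hf hs hA

end Pool.Agent.Results.MP_5ab805_an.RayModulus
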