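import Mathlib
import Pool.Agent.Wex.All
import Pool.Agent.Wex.All3

/-!
# MP_5ab805_an: time slices

For every bounded `f` and every `g` on the disc, and every real `c`, the product `ext f * ext g`
is controlled in `L^(q/2)(ℝ³)`, for every `q > 3`, by the norm of `ext g` in `L^s` of the plane
`ξ₃ = c`, `s < q/2`. In the trilinear form with a third function in `L²` the exponent is optimal.
-/

namespace Pool.Agent.Results.MP_5ab805_an.TimeSlice

open MeasureTheory
open scoped ENNReal NNReal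

/-- The Fourier extension operator of the paraboloid:
`ext f ξ = ∫ exp(-i Φ(x)·ξ) f(x) dx` with `Φ(x) = (x₁, x₂, x₁² + x₂²)`. -/
noncomputable def ext (f : ℝ × ℝ → ℂ) (ξ : ℝ × ℝ × ℝ) : ℂ :=
  ∫ x : ℝ × ℝ, Complex.exp (-(Complex.I *
    ((x.1 * ξ.1 + x.2 * ξ.2.1 + (x.1 ^ 2 + x.2 ^ 2) * ξ.2.2 : ℝ) : ℂ))) * f x

/-- A measurable function vanishing outside the disc of radius `1/2`. -/
def InDisc (f : ℝ × ℝ → ℂ) : Prop :=
  Measurable f ∧ ∀ x : ℝ × ℝ, 1 / 4 < x.1 ^ 2 + x.2 ^ 2 → f x = 0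

/-- The restriction of `ext g` to the plane `ξ₃ = c`. -/
noncomputable def slice (c : ℝ) (g : ℝ × ℝ → ℂ) (y : ℝ × ℝ) : ℂ := ext g (y.1, y.2, c)

/-- The bilinear inequality with exponents `q` and `s`: the constant `C` does not depend on
`c`, `f`, `g`. -/
def Bilinear (q s : ℝ) : Prop := ∃ C : ℝ≥0, ∀ (c : ℝ) (f g : ℝ × ℝ → ℂ),
  InDisc f → (∀ x, ‖f x‖ ≤ 1) → InDisc g →
  eLpNorm (fun ξ => ext f ξ * ext g ξ) (ENNReal.ofReal (q / 2)) volume ≤
    C * eLpNorm (slice c g) (ENNReal.ofReal s) volume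

/-- The trilinear inequality with exponents `q` and `t`: the constant `C` does not depend on
`c`, `f`, `h`, `g`. -/
def Trilinear (q t : ℝ) : Prop := ∃ C : ℝ≥0, ∀ (c : ℝ) (f h g : ℝ × ℝ → ℂ),
  InDisc f → (∀ x, ‖f x‖ ≤ 1) → InDisc h → InDisc g →
  eLpNorm (fun ξ => ext f ξ * ext h ξ * ext g ξ) (ENNReal.ofReal (q / 3)) volume ≤
    C * eLpNorm h 2 volume * eLpNorm (slice c g) (ENNReal.ofReal t) volume

theorem ext_eq (f : ℝ × ℝ → ℂ) : ext f = Pool.Agent.Restr.E f := by
  funext ξ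
  unfold ext Pool.Agent.Restr.E Pool.Agent.Restr.u
  refine integral_congr_ae (Filter.Eventually.of_forall fun x => ?_)
  simp only
  congr 4
  ring_nf

theorem bil {q s : ℝ} (hq : 3 < q) (hq4 : q < 4) (hs : 1 ≤ s) (hsq : s < q / 2) :
    Bilinear q s := by
  obtain ⟨C, hC⟩ := Wex.fin (q / 2) s (q / 3) 1 (by linarith) (by linarith) hs hsq (by linarith)
    (by linarith) le_rfl (by
      have : 1 / (q / 3) < 1 := by
        rw [div_lt_one (by linarith)]
        linarith
      linarith)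
  refine ⟨C, fun c f g hf hf1 hg => ?_⟩
  have h1 := (hC c f g hf hf1 hg).1
  unfold slice
  simp only [ext_eq]
  exact h1

theorem tri {q t : ℝ} (hq : 3 < q) (hq4 : q < 4) (ht : 1 ≤ t) (htq : t < 4 * q / (12 - q)) :
    Trilinear q t := by
  obtain ⟨C, hC⟩ := Wex.fin (q / 2) 1 (q / 3) t (by linarith) (by linarith) le_rfl (by linarith)
    (by linarith) (by linarith) ht (by
      have h0 : 0 < 12 - q := by linarith
      have h1 : 1 / (q / 3) - 1 / 4 = 1 / (4 * q / (12 - q)) := by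
        field_simp
        ring
      rw [h1]
      exact one_div_lt_one_div_of_lt (by linarith) htq)
  refine ⟨C, fun c f h g hf hf1 hh hg => ?_⟩
  have h1 := (hC c f g hf hf1 hg).2 h hh
  unfold slice
  simp only [ext_eq]
  refine h1.trans (le_of_eq ?_)
  ring

theorem bil_nec {q s : ℝ} (hq : 2 ≤ q) (hq4 : q < 4) (hs : 1 ≤ s)
    (h : Bilinear q s) : 4 / q - 3 / 4 ≤ 1 / s := by
  obtain ⟨C, hC⟩ := h
  have h1 := Wex.nec.1 (q / 2) s (by linarith) (by linarith) hs ⟨C, fun f g hf hf1 hg => by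
    have h2 := hC 0 f g hf hf1 hg
    unfold slice at h2
    simpa only [ext_eq] using h2⟩
  have e : 2 / (q / 2) = 4 / q := by
    field_simp
    norm_num
  linarith

theorem tri_nec {q t : ℝ} (hq : 3 ≤ q) (hq4 : q < 4) (ht : 1 ≤ t)
    (h : Trilinear q t) : 6 / q - 5 / 4 ≤ 1 / t := by
  obtain ⟨C, hC⟩ := h
  have h1 := Wex.nec.2 (q / 3) t (by linarith) (by linarith) ht ⟨C, fun f h g hf hf1 hh hg => by
    have h2 := hC 0 f h g hf hf1 hh hg
    unfold slice at h2
    simp only [ext_eq] at h2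
    refine h2.trans (le_of_eq ?_)
    ring⟩
  have e : 2 / (q / 3) = 6 / q := by
    field_simp
    norm_num
  linarith

/-- (1) The bilinear inequality holds for `3 < q < 4`, `1 ≤ s < q/2`. (2) The trilinear inequality
holds for `3 < q < 4`, `1 ≤ t < 4q/(12-q)`. (3) For real `t ≥ 1` the trilinear inequality holds
for all `3 < q < 4` if and only if `t ≤ 4/3`. (4) If for some `s ≥ 1` the bilinear inequality
holds for all `3 < q < 4`, then `s ≤ 12/7`. -/
theorem result :
    (∀ q s : ℝ, 3 < q → q < 4 → 1 ≤ s → s < q / 2 → Bilinear q s) ∧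
    (∀ q t : ℝ, 3 < q → q < 4 → 1 ≤ t → t < 4 * q / (12 - q) → Trilinear q t) ∧
    (∀ t : ℝ, 1 ≤ t → ((∀ q : ℝ, 3 < q → q < 4 → Trilinear q t) ↔ t ≤ 4 / 3)) ∧
    ∀ s : ℝ, 1 ≤ s → (∀ q : ℝ, 3 < q → q < 4 → Bilinear q s) → s ≤ 12 / 7 := by
  have lim : ∀ a b r : ℝ, 0 < r → 0 < a → (∀ q : ℝ, 3 < q → q < 4 → a / q - b ≤ r) →
      a / 3 - b ≤ r := by
    intro a b r hr ha h
    by_contra hc
    push Not at hc
    have hb : 0 < r + b ∨ r + b ≤ 0 := lt_or_ge 0 (r + b)
    rcases hb with hb | hb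
    · have h3 : 3 < a / (r + b) := by
        rw [lt_div_iff₀ hb]
        linarith
      obtain ⟨q, hq3, hq⟩ := exists_between (lt_min h3 (by norm_num : (3 : ℝ) < 4))
      have hq1 := (lt_min_iff.1 hq).1
      have hq2 := (lt_min_iff.1 hq).2
      have h4 := h q hq3 hq2
      rw [lt_div_iff₀ hb] at hq1
      have h5 : a / q ≤ r + b := by linarith
      rw [div_le_iff₀ (by linarith)] at h5
      linarith
    · have h4 := h (7 / 2) (by norm_num) (by norm_num)
      have : 0 < a / (7 / 2) := by positivity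
      linarith
  refine ⟨fun q s hq hq4 hs hsq => bil hq hq4 hs hsq, fun q t hq hq4 ht htq =>
    tri hq hq4 ht htq, fun t ht => ⟨fun h => ?_, fun h q hq hq4 => ?_⟩, fun s hs h => ?_⟩
  · have h1 := lim 6 (5 / 4) (1 / t) (by positivity) (by norm_num)
      fun q hq hq4 => tri_nec hq.le hq4 ht (h q hq hq4)
    have h2 : 3 / 4 ≤ 1 / t := by linarith
    rw [le_div_iff₀ (by linarith)] at h2
    linarith
  · refine tri hq hq4 ht (h.trans_lt ?_)
    rw [lt_div_iff₀ (by linarith)]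
    linarith
  · have h1 := lim 4 (3 / 4) (1 / s) (by positivity) (by norm_num)
      fun q hq hq4 => bil_nec (by linarith) hq4 hs (h q hq hq4)
    have h2 : 7 / 12 ≤ 1 / s := by linarith
    rw [le_div_iff₀ (by linarith)] at h2
    linarith

end Pool.Agent.Results.MP_5ab805_an.TimeSlice
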