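import Mathlib
import Pool.Agent.Wey.All

/-!
# MP_5ab805_an: Weyl sums as partners of every function

By Hölder the conjecture says that `ext f₁ * ext f₂` lies in `L^(q/2)` and `ext f₁ * ext f₂ * ext f₃`
in `L^(q/3)` for all `q > 3` and all bounded `f₁, f₂, f₃` on the disc. Here this is proved for
arbitrary `f₁` and `f₂` when the remaining factor is a cut-off times an exponential sum `G` with
arbitrary coefficients, whose frequencies `(h n, ψ n)` have bounded annular complexity; for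
instance `ψ n = p n` with a real polynomial `p` (Weyl sums). Only the size of the products
`f₁(x) G(x + v e)` in `L²` enters.
-/

namespace Pool.Agent.Results.MP_5ab805_an.WeylSumPartners

open MeasureTheory
open scoped ENNReal NNReal

/-- The Fourier extension operator of the paraboloid:
`ext f ξ = ∫ exp(-i Φ(x)·ξ) f(x) dx` with `Φ(x) = (x₁, x₂, x₁² + x₂²)`. -/
noncomputable def ext (f : ℝ × ℝ → ℂ) (ξ : ℝ × ℝ × ℝ) : ℂ :=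
  ∫ x : ℝ × ℝ, Complex.exp (-(Complex.I *
    ((x.1 * ξ.1 + x.2 * ξ.2.1 + (x.1 ^ 2 + x.2 ^ 2) * ξ.2.2 : ℝ) : ℂ))) * f x

/-- A measurable function vanishing outside the disc of radius `1/2`. -/
def InDisc (f : ℝ × ℝ → ℂ) : Prop :=
  Measurable f ∧ ∀ x : ℝ × ℝ, 1 / 4 < x.1 ^ 2 + x.2 ^ 2 → f x = 0

/-- The exponential sum `G(y) = ∑_{n ∈ s} a_n exp(i (h n y₁ + ψ_n y₂))`. -/
noncomputable def expSum (h : ℝ) (ψ : ℤ → ℝ) (s : Finset ℤ) (a : ℤ → ℂ) (y : ℝ × ℝ) : ℂ :=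
  ∑ n ∈ s, a n * Complex.exp (Complex.I * ((h * n * y.1 + ψ n * y.2 : ℝ) : ℂ))

/-- Annular complexity at most `m`: for every annulus the set of all `n ∈ s` whose frequency
`(h n, ψ_n)` lies in the annulus is the trace on `s` of `m` disjoint intervals of integers
(possibly empty). -/
def Annular (m : ℕ) (h : ℝ) (ψ : ℤ → ℝ) (s : Finset ℤ) : Prop :=
  ∀ c d a b : ℝ, ∃ P : Fin m → Set ℤ, (∀ i, (P i).OrdConnected) ∧
    (∀ i j, i ≠ j → Disjoint (P i) (P j)) ∧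
    ∀ n ∈ s, (a < (h * n - c) ^ 2 + (ψ n - d) ^ 2 ∧ (h * n - c) ^ 2 + (ψ n - d) ^ 2 ≤ b) ↔
      ∃ i, n ∈ P i

/-- A cut-off: it vanishes outside the disc of radius `1/2` and has an absolutely convergent
Fourier integral `χ(x) = ∫ exp(i w·x) κ(w) dw` with `‖κ‖₁ ≤ K`. -/
def CutOff (K : ℝ≥0) (χ : ℝ × ℝ → ℂ) : Prop :=
  (∀ x : ℝ × ℝ, 1 / 4 < x.1 ^ 2 + x.2 ^ 2 → χ x = 0) ∧
  ∃ κ : ℝ × ℝ → ℂ, Integrable κ ∧ ∫⁻ w, ‖κ w‖ₑ ≤ K ∧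
    ∀ x, χ x = ∫ w : ℝ × ℝ, Complex.exp (Complex.I * ((w.1 * x.1 + w.2 * x.2 : ℝ) : ℂ)) * κ w

/-- `exp(i c |x|²) χ(x) G(x·e, x·e^⊥)`, where `e^⊥ = (e₂, -e₁)`. -/
noncomputable def wave (c : ℝ) (e : ℝ × ℝ) (h : ℝ) (ψ : ℤ → ℝ) (s : Finset ℤ) (a : ℤ → ℂ)
    (χ : ℝ × ℝ → ℂ) (x : ℝ × ℝ) : ℂ :=
  Complex.exp (Complex.I * ((c * (x.1 ^ 2 + x.2 ^ 2) : ℝ) : ℂ)) *
    (χ x * expSum h ψ s a (x.1 * e.1 + x.2 * e.2, x.1 * e.2 - x.2 * e.1))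

/-- The supremum over all real `v` of the `L²` norm of `f(x) G(x·e + v, x·e^⊥)`. -/
noncomputable def joint (e : ℝ × ℝ) (h : ℝ) (ψ : ℤ → ℝ) (s : Finset ℤ) (a : ℤ → ℂ)
    (f : ℝ × ℝ → ℂ) : ℝ≥0∞ :=
  ⨆ v : ℝ, eLpNorm (fun x : ℝ × ℝ =>
    f x * expSum h ψ s a (x.1 * e.1 + x.2 * e.2 + v, x.1 * e.2 - x.2 * e.1)) 2 volume

theorem ext_eq (f : ℝ × ℝ → ℂ) : ext f = Pool.Agent.Restr.E f := by
  funext ξ
  unfold ext Pool.Agent.Restr.E Pool.Agent.Restr.u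
  refine integral_congr_ae (Filter.Eventually.of_forall fun x => ?_)
  simp only
  congr 4
  ring_nf

theorem u_neg (r : ℝ) : Pool.Agent.Restr.u (-r) = Complex.exp (Complex.I * (r : ℂ)) := by
  unfold Pool.Agent.Restr.u
  congr 1
  push_cast
  ring

theorem expSum_eq (h : ℝ) (ψ : ℤ → ℝ) (s : Finset ℤ) (a : ℤ → ℂ) (y : ℝ × ℝ) :
    expSum h ψ s a y = Wey.Gs h ψ s a y := by
  unfold expSum Wey.Gs
  exact Finset.sum_congr rfl fun n _ => by rw [u_neg]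

theorem wave_eq (c : ℝ) (e : ℝ × ℝ) (h : ℝ) (ψ : ℤ → ℝ) (s : Finset ℤ) (a : ℤ → ℂ)
    (χ : ℝ × ℝ → ℂ) : wave c e h ψ s a χ = Wey.gfun c e h ψ s a χ := by
  funext x
  unfold wave Wey.gfun Wey.nq
  rw [u_neg, expSum_eq]

theorem joint_sq (e : ℝ × ℝ) (h : ℝ) (ψ : ℤ → ℝ) (s : Finset ℤ) (a : ℤ → ℂ)
    (f : ℝ × ℝ → ℂ) (v : ℝ) : ∫⁻ x : ℝ × ℝ, ‖f x‖ₑ ^ 2 *
      ‖Wey.Gs h ψ s a (x.1 * e.1 + x.2 * e.2 + v, x.1 * e.2 - x.2 * e.1)‖ₑ ^ 2 ≤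
      joint e h ψ s a f ^ 2 := by
  calc ∫⁻ x : ℝ × ℝ, ‖f x‖ₑ ^ 2 *
      ‖Wey.Gs h ψ s a (x.1 * e.1 + x.2 * e.2 + v, x.1 * e.2 - x.2 * e.1)‖ₑ ^ 2
      = ∫⁻ x : ℝ × ℝ, ‖f x * expSum h ψ s a (x.1 * e.1 + x.2 * e.2 + v,
        x.1 * e.2 - x.2 * e.1)‖ₑ ^ 2 := by
        refine lintegral_congr fun x => ?_
        rw [expSum_eq, enorm_mul, mul_pow]
    _ = (eLpNorm (fun x : ℝ × ℝ => f x * expSum h ψ s a (x.1 * e.1 + x.2 * e.2 + v,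
        x.1 * e.2 - x.2 * e.1)) 2 volume) ^ 2 := Pool.Agent.Restr.lin_2
    _ ≤ _ := pow_le_pow_left₀ (zero_le) (le_iSup (fun v : ℝ => eLpNorm (fun x : ℝ × ℝ =>
        f x * expSum h ψ s a (x.1 * e.1 + x.2 * e.2 + v, x.1 * e.2 - x.2 * e.1)) 2 volume) v) 2

theorem joint_bounded {e : ℝ × ℝ} (he : e.1 ^ 2 + e.2 ^ 2 = 1) {h : ℝ} {ψ : ℤ → ℝ}
    {s : Finset ℤ} {a : ℤ → ℂ} {f : ℝ × ℝ → ℂ} (hf : InDisc f)
    (hG : ∀ y : ℝ × ℝ, |y.2| ≤ 1 / 2 → ‖expSum h ψ s a y‖ ≤ 1) :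
    joint e h ψ s a f ≤ eLpNorm f 2 volume := by
  refine iSup_le fun v => eLpNorm_mono fun x => ?_
  rw [norm_mul]
  by_cases hx : 1 / 4 < x.1 ^ 2 + x.2 ^ 2
  · rw [hf.2 x hx]
    simp
  · push Not at hx
    have h1 : |x.1 * e.2 - x.2 * e.1| ≤ 1 / 2 := by
      rw [← sq_le_sq₀ (abs_nonneg _) (by norm_num), sq_abs]
      nlinarith [sq_nonneg (x.1 * e.1 + x.2 * e.2)]
    exact mul_le_of_le_one_right (norm_nonneg _) (hG _ h1)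

theorem joint_l2 {e : ℝ × ℝ} (he : e.1 ^ 2 + e.2 ^ 2 = 1) {h : ℝ} (hh : 1 ≤ h) {ψ : ℤ → ℝ}
    {s : Finset ℤ} {a : ℤ → ℂ} {f : ℝ × ℝ → ℂ} (hf : InDisc f) (hb : ∀ x, ‖f x‖ ≤ 1) :
    joint e h ψ s a f ≤ ENNReal.ofReal (3 * √(∑ n ∈ s, ‖a n‖ ^ 2)) := by
  refine iSup_le fun v => ?_
  have h1 : (eLpNorm (fun x : ℝ × ℝ => f x * expSum h ψ s a (x.1 * e.1 + x.2 * e.2 + v,
      x.1 * e.2 - x.2 * e.1)) 2 volume) ^ 2 ≤ 8 * ∑ n ∈ s, ‖a n‖ₑ ^ 2 := by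
    rw [← Pool.Agent.Restr.lin_2]
    have h2 : ∀ x : ℝ × ℝ, ‖f x * expSum h ψ s a (x.1 * e.1 + x.2 * e.2 + v,
        x.1 * e.2 - x.2 * e.1)‖ₑ ^ 2 ≤ (Pool.Agent.Restr.QQ.indicator (fun y : ℝ × ℝ =>
        ‖Wey.Gs h ψ s (fun n => a n * Pool.Agent.Restr.u (-(h * n * v))) y‖ₑ ^ 2))
          (Wey.ROT_O e x) := by
      intro x
      by_cases hx : 1 / 4 < x.1 ^ 2 + x.2 ^ 2
      · rw [hf.2 x hx]
        simp
      · have hQ : Wey.ROT_O e x ∈ Pool.Agent.Restr.QQ := by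
          by_contra hQ
          have h3 := Wey.ROT_QQ hQ
          have h4 := Wey.ROT_nq he x
          unfold Wey.nq at h4
          rw [h4] at h3
          exact hx h3
        rw [Set.indicator_of_mem hQ]
        have h5 : expSum h ψ s a (x.1 * e.1 + x.2 * e.2 + v, x.1 * e.2 - x.2 * e.1) =
            Wey.Gs h ψ s (fun n => a n * Pool.Agent.Restr.u (-(h * n * v)))
              (Wey.ROT_O e x) := by
          rw [expSum_eq]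
          unfold Wey.Gs Wey.ROT_O
          refine Finset.sum_congr rfl fun n _ => ?_
          simp only
          rw [mul_assoc (a n), ← Pool.Agent.Restr.u_add]
          congr 2
          ring
        rw [h5, enorm_mul, mul_pow]
        refine mul_le_of_le_one_left (zero_le) (pow_le_one₀ (zero_le) ?_)
        rw [← ofReal_norm]
        exact ENNReal.ofReal_le_one.2 (hb x)
    have hQm : MeasurableSet Pool.Agent.Restr.QQ :=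
      measurableSet_Icc.prod measurableSet_Icc
    have hG : Measurable fun y : ℝ × ℝ =>
        ‖Wey.Gs h ψ s (fun n => a n * Pool.Agent.Restr.u (-(h * n * v))) y‖ₑ ^ 2 := by
      have h6 := Wey.SQW_meas h ψ s (fun n => a n * Pool.Agent.Restr.u (-(h * n * v))) 0
      simpa using h6
    refine (lintegral_mono h2).trans ?_
    rw [(Wey.ROT_mp he).lintegral_comp (hG.indicator hQm), lintegral_indicator hQm]
    refine (Wey.p_SQB h ψ s (fun n => a n * Pool.Agent.Restr.u (-(h * n * v))) (fun _ => 0) 0 hh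
      ⟨measurable_const, fun _ _ => rfl⟩ (fun _ => by simp)).2.trans (le_of_eq ?_)
    congr 1
    refine Finset.sum_congr rfl fun n _ => ?_
    rw [enorm_mul, Pool.Agent.Restr.enorm_u, mul_one]
  have h7 : 8 * ∑ n ∈ s, ‖a n‖ₑ ^ 2 ≤ (ENNReal.ofReal (3 * √(∑ n ∈ s, ‖a n‖ ^ 2))) ^ 2 := by
    have e1 : ∑ n ∈ s, ‖a n‖ₑ ^ 2 = ENNReal.ofReal (∑ n ∈ s, ‖a n‖ ^ 2) := by
      rw [ENNReal.ofReal_sum_of_nonneg fun _ _ => sq_nonneg _]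
      refine Finset.sum_congr rfl fun n _ => ?_
      rw [ENNReal.ofReal_pow (norm_nonneg _), ofReal_norm]
    have e2 : 0 ≤ ∑ n ∈ s, ‖a n‖ ^ 2 := Finset.sum_nonneg fun _ _ => sq_nonneg _
    rw [e1, ← ENNReal.ofReal_pow (by positivity), mul_pow, Real.sq_sqrt e2,
      ENNReal.ofReal_mul (by norm_num)]
    refine mul_le_mul_left ?_ _
    rw [show (8 : ℝ≥0∞) = ENNReal.ofReal 8 by simp]
    exact ENNReal.ofReal_le_ofReal (by norm_num)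
  exact (ENNReal.pow_le_pow_left_iff two_ne_zero).1 (h1.trans h7)

/-- For `3 < q < 4` there is `C = C(q)` such that for every `g = exp(ic|x|²) χ(x) G(x·e, x·e^⊥)`,
`G` an exponential sum of annular complexity at most `m` with any coefficients, `h ≥ 1`, `χ` a
cut-off with constant `K`, `e` a unit vector, `c` real, and for all `f₁, f₂` living in the disc
`‖ext f₁ · ext g‖_(q/2) ≤ C K √m N` and `‖ext f₁ · ext f₂ · ext g‖_(q/3) ≤ C K √m N ‖f₂‖₂`, where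
`N` is the supremum over `v` of the `L²` norm of `f₁(x) G(x·e + v, x·e^⊥)`.
Moreover `N ≤ ‖f₁‖₂` if `|G| ≤ 1` on the strip `|y₂| ≤ 1/2`, and `N ≤ 3 (∑ |a_n|²)^(1/2)` if
`|f₁| ≤ 1`. The annular complexity is at most `2 deg p + 2` if `ψ_n = p(n)` with a real
polynomial `p`. -/
theorem result :
    (∀ q : ℝ, 3 < q → q < 4 → ∃ C : ℝ≥0, ∀ (m : ℕ) (h c : ℝ) (e : ℝ × ℝ) (ψ : ℤ → ℝ)
      (s : Finset ℤ) (a : ℤ → ℂ) (χ : ℝ × ℝ → ℂ) (K : ℝ≥0), 1 ≤ m → 1 ≤ h →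
      e.1 ^ 2 + e.2 ^ 2 = 1 → Annular m h ψ s → CutOff K χ →
      ∀ f₁ f₂ : ℝ × ℝ → ℂ, InDisc f₁ → InDisc f₂ →
        eLpNorm (fun ξ => ext f₁ ξ * ext (wave c e h ψ s a χ) ξ)
          (ENNReal.ofReal (q / 2)) volume ≤ C * K * NNReal.sqrt m * joint e h ψ s a f₁ ∧
        eLpNorm (fun ξ => ext f₁ ξ * ext f₂ ξ * ext (wave c e h ψ s a χ) ξ)
          (ENNReal.ofReal (q / 3)) volume ≤
          C * K * NNReal.sqrt m * joint e h ψ s a f₁ * eLpNorm f₂ 2 volume) ∧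
    (∀ (h : ℝ) (e : ℝ × ℝ) (ψ : ℤ → ℝ) (s : Finset ℤ) (a : ℤ → ℂ) (f : ℝ × ℝ → ℂ), 1 ≤ h →
      e.1 ^ 2 + e.2 ^ 2 = 1 → InDisc f →
      ((∀ y : ℝ × ℝ, |y.2| ≤ 1 / 2 → ‖expSum h ψ s a y‖ ≤ 1) →
        joint e h ψ s a f ≤ eLpNorm f 2 volume) ∧
      ((∀ x, ‖f x‖ ≤ 1) →
        joint e h ψ s a f ≤ ENNReal.ofReal (3 * √(∑ n ∈ s, ‖a n‖ ^ 2)))) ∧
    ∀ (p : Polynomial ℝ) (h : ℝ) (s : Finset ℤ),
      Annular (2 * p.natDegree + 2) h (fun n => p.eval (n : ℝ)) s := by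
  refine ⟨fun q hq hq4 => ?_, fun h e ψ s a f hh he hf =>
    ⟨fun hG => joint_bounded he hf hG, fun hb => joint_l2 he hh hf hb⟩, Wey.p_POL⟩
  obtain ⟨C, hC⟩ := Wey.row q hq hq4
  refine ⟨C, fun m h c e ψ s a χ K hm hh he hA hχ f₁ f₂ hf₁ hf₂ => ?_⟩
  obtain ⟨hχ0, κ, hκ, hκK, hκχ⟩ := hχ
  have hW : Wey.Wi K χ := by
    refine ⟨κ, hκ, hκK, fun x => ?_⟩
    rw [hκχ x]
    refine integral_congr_ae (Filter.Eventually.of_forall fun w => ?_)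
    simp only
    rw [u_neg]
  obtain ⟨h1, h2⟩ := hC m h ψ s a χ K e c hm hh hA hW hχ0 he f₁ (joint e h ψ s a f₁) hf₁
    (joint_sq e h ψ s a f₁)
  simp only [ext_eq, wave_eq]
  exact ⟨h1, h2 f₂ hf₂⟩

end Pool.Agent.Results.MP_5ab805_an.WeylSumPartners
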